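import Pool.Agent.Y318.LF.Stm

set_option autoImplicit false

/-!
# Rational subspaces
-/

open Set Filter Topology MeasureTheory

namespace Pool.Agent.Y925.LF.Adapt

open Pool.Agent.H728R2.OS Pool.Agent.H637R2.TD Pool.Agent.Y318.LF

theorem isInt_add {d : ℕ} {a b : Fin d → ℝ} (ha : IsInt a) (hb : IsInt b) : IsInt (a + b) := by
  intro i
  obtain ⟨m, hm⟩ := ha i
  obtain ⟨n, hn⟩ := hb i
  exact ⟨m + n, by rw [Pi.add_apply, hm, hn]; push_cast; ring⟩

theorem isInt_neg {d : ℕ} {a : Fin d → ℝ} (ha : IsInt a) : IsInt (-a) := by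
  intro i
  obtain ⟨m, hm⟩ := ha i
  exact ⟨-m, by rw [Pi.neg_apply, hm]; push_cast; ring⟩

theorem isInt_smul {d : ℕ} {a : Fin d → ℝ} (k : ℤ) (ha : IsInt a) : IsInt ((k : ℝ) • a) := by
  intro i
  obtain ⟨m, hm⟩ := ha i
  exact ⟨k * m, by rw [Pi.smul_apply, hm, smul_eq_mul]; push_cast; ring⟩

theorem isInt_single {d : ℕ} (i : Fin d) : IsInt (Pi.single i 1 : Fin d → ℝ) := by
  intro l
  by_cases h : l = i
  · subst h
    exact ⟨1, by simp⟩
  · exact ⟨0, by simp [h]⟩

/-- the integer vectors -/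
def intSub (d : ℕ) : AddSubgroup (Fin d → ℝ) where
  carrier := {z | IsInt z}
  add_mem' := fun ha hb => isInt_add ha hb
  zero_mem' := fun _ => ⟨0, by simp⟩
  neg_mem' := fun ha => isInt_neg ha

theorem kron : S_KRON := by
  intro m l hl hrat
  set S : AddSubgroup ℝ := (intSub m).map l.toAddMonoidHom with hS
  have hmem : ∀ x : ℝ, x ∈ S ↔ ∃ n, IsInt n ∧ x = l n := by
    intro x
    constructor
    · rintro ⟨n, hn, rfl⟩
      exact ⟨n, hn, rfl⟩
    · rintro ⟨n, hn, rfl⟩
      exact ⟨n, hn, rfl⟩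
  have hset : {x : ℝ | ∃ n, IsInt n ∧ x = l n} = (S : Set ℝ) := by
    ext x
    exact (hmem x).symm
  rw [hset]
  rcases S.dense_or_cyclic with h | ⟨a, ha⟩
  · exact h
  exfalso
  apply hrat
  have haS : a ∈ S := by
    rw [ha]
    exact AddSubgroup.subset_closure rfl
  obtain ⟨n0, hn0, hln0⟩ := (hmem a).1 haS
  have hk : ∀ i : Fin m, ∃ k : ℤ, l (Pi.single i 1) = k * a := by
    intro i
    have h1 : l (Pi.single i 1) ∈ S := (hmem _).2 ⟨_, isInt_single i, rfl⟩
    rw [ha, AddSubgroup.mem_closure_singleton] at h1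
    obtain ⟨k, hk⟩ := h1
    exact ⟨k, by rw [← hk]; simp⟩
  choose k hk using hk
  have hsum : ∀ z : Fin m → ℝ, z = ∑ i, z i • (Pi.single i 1 : Fin m → ℝ) := by
    intro z
    exact pi_eq_sum_univ' z
  have hlz : ∀ z : Fin m → ℝ, l z = (∑ i, z i * k i) * a := by
    intro z
    conv_lhs => rw [hsum z]
    rw [map_sum, Finset.sum_mul]
    refine Finset.sum_congr rfl fun i _ => ?_
    rw [map_smul, hk, smul_eq_mul]
    ring
  have ha0 : a ≠ 0 := by
    rintro rfl
    apply hl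
    ext i
    simp [hk]
  apply le_antisymm
  · intro z hz
    have h0 : ∑ i, z i * k i = 0 := by
      have h1 : l z = 0 := hz
      rw [hlz] at h1
      rcases mul_eq_zero.1 h1 with h | h
      · exact h
      · exact absurd h ha0
    have h2 : z = ∑ i, z i • ((Pi.single i 1 : Fin m → ℝ) + ((-k i : ℤ) : ℝ) • n0) := by
      simp only [smul_add, Finset.sum_add_distrib]
      rw [← hsum z]
      have : ∑ i, z i • ((-k i : ℤ) : ℝ) • n0 = -((∑ i, z i * k i) • n0) := by
        rw [Finset.sum_smul, ← Finset.sum_neg_distrib]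
        refine Finset.sum_congr rfl fun i _ => ?_
        rw [smul_smul, ← neg_smul]
        congr 1
        push_cast
        ring
      rw [this, h0]
      simp
    rw [h2]
    refine Submodule.sum_mem _ fun i _ => Submodule.smul_mem _ _ (Submodule.subset_span ⟨?_, ?_⟩)
    · show l _ = 0
      rw [map_add, map_smul, hk, ← hln0, smul_eq_mul]
      push_cast
      ring
    · exact isInt_add (isInt_single i) (isInt_smul _ hn0)
  · rw [Submodule.span_le]
    rintro n ⟨hn, -⟩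
    exact hn

/-! ### Adapted coordinates -/

theorem isRat_map {d e : ℕ} {U : Submodule ℝ (Fin d → ℝ)} (hU : IsRat U)
    (f : (Fin d → ℝ) →ₗ[ℝ] (Fin e → ℝ)) (hf : ∀ z, IsInt z → IsInt (f z)) : IsRat (U.map f) := by
  apply le_antisymm
  · conv_lhs => rw [hU]
    rw [Submodule.map_span]
    refine Submodule.span_mono ?_
    rintro _ ⟨n, ⟨hn1, hn2⟩, rfl⟩
    exact ⟨⟨n, hn1, rfl⟩, hf n hn2⟩
  · rw [Submodule.span_le]
    rintro n ⟨hn, -⟩
    exact hn

/-- forgetting the first coordinate -/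
def tl (d : ℕ) : (Fin (d + 1) → ℝ) →ₗ[ℝ] (Fin d → ℝ) where
  toFun z := Fin.tail z
  map_add' _ _ := rfl
  map_smul' _ _ := rfl

theorem tl_surj (d : ℕ) : Function.Surjective (tl d) := fun x =>
  ⟨Fin.cons (0 : ℝ) x, funext fun _ => rfl⟩

theorem ker_tl (d : ℕ) (z : Fin (d + 1) → ℝ) (hz : tl d z = 0) :
    z = z 0 • (Pi.single 0 1 : Fin (d + 1) → ℝ) := by
  funext i
  refine Fin.cases ?_ (fun i => ?_) i
  · simp
  · have : z i.succ = 0 := congrFun hz i
    rw [this]
    simp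

theorem finrank_ker_tl (d : ℕ) : Module.finrank ℝ (LinearMap.ker (tl d)) = 1 := by
  have h := LinearMap.finrank_range_add_finrank_ker (tl d)
  rw [LinearMap.range_eq_top.2 (tl_surj d), finrank_top, Module.finrank_fin_fun,
    Module.finrank_fin_fun] at h
  omega

theorem finrank_map_tl (d : ℕ) (W : Submodule ℝ (Fin (d + 1) → ℝ))
    (hW : (Pi.single 0 1 : Fin (d + 1) → ℝ) ∈ W) :
    Module.finrank ℝ (W.map (tl d)) + 1 = Module.finrank ℝ W := by
  have hle : LinearMap.ker (tl d) ≤ W := by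
    intro z hz
    rw [ker_tl d z hz]
    exact W.smul_mem _ hW
  have h := LinearMap.finrank_range_add_finrank_ker ((tl d).domRestrict W)
  rw [LinearMap.range_domRestrict, LinearMap.ker_domRestrict,
    LinearEquiv.finrank_eq (Submodule.comapSubtypeEquivOfLe hle), finrank_ker_tl] at h
  exact h

/-- `1 × A` -/
def oneProd {d : ℕ} (A : (Fin d → ℝ) ≃L[ℝ] (Fin d → ℝ)) :
    (Fin (d + 1) → ℝ) ≃ₗ[ℝ] (Fin (d + 1) → ℝ) where
  toFun z := Fin.cons (z 0) (A (Fin.tail z))
  invFun z := Fin.cons (z 0) (A.symm (Fin.tail z))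
  map_add' z w := by
    funext i
    refine Fin.cases ?_ (fun i => ?_) i
    · simp
    · have : Fin.tail (z + w) = Fin.tail z + Fin.tail w := rfl
      rw [this, map_add]
      simp
  map_smul' a z := by
    funext i
    refine Fin.cases ?_ (fun i => ?_) i
    · simp
    · have : Fin.tail (a • z) = a • Fin.tail z := rfl
      rw [this, map_smul]
      simp
  left_inv z := by
    show Fin.cons ((Fin.cons (z 0) (A (Fin.tail z)) : Fin (d + 1) → ℝ) 0)
      (A.symm (Fin.tail (Fin.cons (z 0) (A (Fin.tail z)) : Fin (d + 1) → ℝ))) = z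
    rw [Fin.tail_cons, Fin.cons_zero, A.symm_apply_apply, Fin.cons_self_tail]
  right_inv z := by
    show Fin.cons ((Fin.cons (z 0) (A.symm (Fin.tail z)) : Fin (d + 1) → ℝ) 0)
      (A (Fin.tail (Fin.cons (z 0) (A.symm (Fin.tail z)) : Fin (d + 1) → ℝ))) = z
    rw [Fin.tail_cons, Fin.cons_zero, A.apply_symm_apply, Fin.cons_self_tail]

theorem tail_oneProd {d : ℕ} (A : (Fin d → ℝ) ≃L[ℝ] (Fin d → ℝ)) (z : Fin (d + 1) → ℝ) :
    Fin.tail (oneProd A z) = A (Fin.tail z) := Fin.tail_cons _ _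

theorem zero_oneProd {d : ℕ} (A : (Fin d → ℝ) ≃L[ℝ] (Fin d → ℝ)) (z : Fin (d + 1) → ℝ) :
    oneProd A z 0 = z 0 := rfl

theorem isInt_succ {d : ℕ} (z : Fin (d + 1) → ℝ) :
    IsInt z ↔ (∃ n : ℤ, z 0 = n) ∧ IsInt (Fin.tail z) := by
  constructor
  · intro h
    exact ⟨h 0, fun i => h i.succ⟩
  · rintro ⟨h1, h2⟩ i
    refine Fin.cases h1 (fun i => h2 i) i

theorem intAut_oneProd {d : ℕ} (A : (Fin d → ℝ) ≃L[ℝ] (Fin d → ℝ)) (hA : IntAut A)
    (z : Fin (d + 1) → ℝ) : IsInt (oneProd A z) ↔ IsInt z := by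
  rw [isInt_succ, isInt_succ, tail_oneProd, zero_oneProd, hA]

theorem mem_std_succ {d k : ℕ} (z : Fin (d + 1) → ℝ) :
    z ∈ std (d + 1) (k + 1) ↔ Fin.tail z ∈ std d k := by
  constructor
  · intro h i hi
    exact h i.succ (by simpa using hi)
  · intro h i hi
    rcases Fin.eq_zero_or_eq_succ i with rfl | ⟨i, rfl⟩
    · simp at hi
    · exact h i (by simpa using hi)

theorem gen (hP : S_PRIM) (d : ℕ) : ∀ (V : ℕ → Submodule ℝ (Fin d → ℝ)) (j : ℕ), j ≤ d →
    (∀ k l, j ≤ k → k ≤ l → l ≤ d → V k ≤ V l) →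
    (∀ k, j ≤ k → k ≤ d → Module.finrank ℝ (V k) = k) →
    (∀ k, j ≤ k → k ≤ d → IsRat (V k)) →
    ∃ A : (Fin d → ℝ) ≃L[ℝ] (Fin d → ℝ), IntAut A ∧
      ∀ k, j ≤ k → k ≤ d → (V k).map (A : (Fin d → ℝ) →ₗ[ℝ] (Fin d → ℝ)) = std d k := by
  induction d with
  | zero =>
    intro V j _ _ _ _
    exact ⟨ContinuousLinearEquiv.refl ℝ _, fun z => Iff.rfl, fun k _ _ => Subsingleton.elim _ _⟩
  | succ d ih =>
    have main : ∀ (V : ℕ → Submodule ℝ (Fin (d + 1) → ℝ)) (j : ℕ), j ≤ d →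
        (∀ k l, j + 1 ≤ k → k ≤ l → l ≤ d + 1 → V k ≤ V l) →
        (∀ k, j + 1 ≤ k → k ≤ d + 1 → Module.finrank ℝ (V k) = k) →
        (∀ k, j + 1 ≤ k → k ≤ d + 1 → IsRat (V k)) →
        ∃ A : (Fin (d + 1) → ℝ) ≃L[ℝ] (Fin (d + 1) → ℝ), IntAut A ∧
          ∀ k, j + 1 ≤ k → k ≤ d + 1 →
            (V k).map (A : (Fin (d + 1) → ℝ) →ₗ[ℝ] (Fin (d + 1) → ℝ)) = std (d + 1) k := by
      intro V j hj hmono hdim hrat
      -- an integer vector
      obtain ⟨b, hbV, hbi, hb0⟩ : ∃ b, b ∈ V (j + 1) ∧ IsInt b ∧ b ≠ 0 := by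
        by_contra h
        push Not at h
        have h1 : V (j + 1) = ⊥ := by
          rw [hrat (j + 1) le_rfl (by omega), Submodule.span_eq_bot]
          rintro n ⟨hn1, hn2⟩
          exact h n hn1 hn2
        have h2 := hdim (j + 1) le_rfl (by omega)
        rw [h1, finrank_bot] at h2
        omega
      obtain ⟨A1, hA1, m, hm, hA1b⟩ := hP d b hbi hb0
      have he0 : ∀ k, j + 1 ≤ k → k ≤ d + 1 → (Pi.single 0 1 : Fin (d + 1) → ℝ) ∈
          (V k).map (A1 : (Fin (d + 1) → ℝ) →ₗ[ℝ] (Fin (d + 1) → ℝ)) := by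
        intro k h1 h2
        refine ⟨m⁻¹ • b, (V k).smul_mem _ (hmono _ _ le_rfl h1 h2 hbV), ?_⟩
        show A1 (m⁻¹ • b) = _
        rw [map_smul, hA1b, smul_smul, inv_mul_cancel₀ hm, one_smul]
      have hA1i : ∀ z, IsInt z → IsInt
          ((A1 : (Fin (d + 1) → ℝ) →ₗ[ℝ] (Fin (d + 1) → ℝ)) z) := fun z hz => (hA1 z).2 hz
      obtain ⟨A2, hA2, hA2s⟩ := ih (fun k =>
        ((V (k + 1)).map (A1 : (Fin (d + 1) → ℝ) →ₗ[ℝ] (Fin (d + 1) → ℝ))).map (tl d)) j hj
        (fun k l h1 h2 h3 => Submodule.map_mono (Submodule.map_mono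
          (hmono _ _ (by omega) (by omega) (by omega))))
        (fun k h1 h2 => by
          have h3 := finrank_map_tl d _ (he0 (k + 1) (by omega) (by omega))
          have h4 : Module.finrank ℝ
              ((V (k + 1)).map (A1 : (Fin (d + 1) → ℝ) →ₗ[ℝ] (Fin (d + 1) → ℝ))) =
              Module.finrank ℝ (V (k + 1)) :=
            LinearEquiv.finrank_map_eq A1.toLinearEquiv (V (k + 1))
          rw [h4, hdim (k + 1) (by omega) (by omega)] at h3
          omega)
        (fun k h1 h2 => isRat_map (isRat_map (hrat (k + 1) (by omega) (by omega)) _ hA1i) _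
          fun z hz => ((isInt_succ z).1 hz).2)
      refine ⟨A1.trans (oneProd A2).toContinuousLinearEquiv, ?_, ?_⟩
      · intro z
        show IsInt (oneProd A2 (A1 z)) ↔ IsInt z
        rw [intAut_oneProd A2 hA2, hA1]
      · intro k h1 h2
        obtain ⟨k, rfl⟩ : ∃ k', k = k' + 1 := ⟨k - 1, by omega⟩
        have h3 := hA2s k (by omega) (by omega)
        apply le_antisymm
        · rintro _ ⟨x, hx, rfl⟩
          show oneProd A2 (A1 x) ∈ std (d + 1) (k + 1)
          rw [mem_std_succ, tail_oneProd, ← h3]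
          exact ⟨Fin.tail (A1 x), ⟨A1 x, ⟨x, hx, rfl⟩, rfl⟩, rfl⟩
        · intro y hy
          rw [mem_std_succ, ← h3] at hy
          obtain ⟨_, ⟨_, ⟨x, hx, rfl⟩, rfl⟩, hxy⟩ := hy
          have hxy' : A2 (Fin.tail (A1 x)) = Fin.tail y := hxy
          set w := (oneProd A2).symm y with hw
          have hyw : oneProd A2 w = y := (oneProd A2).apply_symm_apply y
          have h4 : tl d (w - A1 x) = 0 := by
            rw [map_sub, sub_eq_zero]
            apply A2.injective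
            show A2 (Fin.tail w) = A2 (Fin.tail (A1 x))
            rw [← tail_oneProd, hyw, hxy']
          have h5 : w ∈ (V (k + 1)).map (A1 : (Fin (d + 1) → ℝ) →ₗ[ℝ] (Fin (d + 1) → ℝ)) := by
            have h6 : w = (w - A1 x) + A1 x := by abel
            rw [h6]
            refine Submodule.add_mem _ ?_ ⟨x, hx, rfl⟩
            rw [ker_tl d _ h4]
            exact Submodule.smul_mem _ _ (he0 (k + 1) h1 h2)
          obtain ⟨x', hx', hx'w⟩ := h5
          refine ⟨x', hx', ?_⟩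
          show oneProd A2 (A1 x') = y
          rw [← hyw, ← hx'w]
          rfl
    intro V j hj hmono hdim hrat
    rcases Nat.eq_zero_or_pos j with rfl | hj0
    · obtain ⟨A, hA, hAs⟩ := main V 0 (by omega)
        (fun k l h1 h2 h3 => hmono k l (by omega) h2 h3)
        (fun k h1 h2 => hdim k (by omega) h2) (fun k h1 h2 => hrat k (by omega) h2)
      refine ⟨A, hA, fun k _ h2 => ?_⟩
      rcases Nat.eq_zero_or_pos k with rfl | hk0
      · have h3 : V 0 = ⊥ := by
          rw [← Submodule.finrank_eq_zero (R := ℝ)]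
          exact hdim 0 le_rfl (by omega)
        rw [h3, Submodule.map_bot]
        symm
        rw [Submodule.eq_bot_iff]
        intro z hz
        funext i
        exact hz i (Nat.zero_le _)
      · exact hAs k (by omega) h2
    · obtain ⟨j, rfl⟩ : ∃ j', j = j' + 1 := ⟨j - 1, by omega⟩
      exact main V j (by omega) hmono hdim hrat

theorem adapt (hP : S_PRIM) : S_ADAPT := by
  intro d V hV j hj hrat
  exact gen hP d V j hj (fun k l _ h2 _ => hV.mono h2) (fun k _ h2 => hV.dim k h2) hrat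

end Pool.Agent.Y925.LF.Adapt
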