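import Pool.Agent.Y318.LF.Stm
import Pool.Agent.H637R2.TD.Main
import Pool.Agent.H637R2.TD.S.CLOSE
import Pool.Agent.H637R2.TD.S.PROD

set_option autoImplicit false

/-!
# Destroying all periodic points when the hyperplane `V j` of `std d (j + 1)` is irrational
-/

open Set Filter Topology MeasureTheory

namespace Pool.Agent.Y925.LF.Kill

open Pool.Agent.H728R2.OS Pool.Agent.H637R2.TD Pool.Agent.Y318.LF

/-! ### Bounds for the derivatives -/

theorem ld_periodic {d : ℕ} {r : ℕ∞} {F : (Fin d → ℝ) → (Fin d → ℝ)} (hF : LD r F)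
    (v : Fin d → ℝ) (hv : IsInt v) (i : ℕ) (hi : 1 ≤ i) (z : Fin d → ℝ) :
    iteratedFDeriv ℝ i F (z + v) = iteratedFDeriv ℝ i F z := by
  have h1 : (fun z => F (z + v)) = fun z => F z + v := funext fun z => hF.per z v hv
  rw [← iteratedFDeriv_comp_add_right i v z, h1]
  obtain ⟨m, rfl⟩ := Nat.exists_eq_add_of_le' hi
  have h2 : (fderiv ℝ fun z => F z + v) = fderiv ℝ F := by
    funext y
    exact fderiv_add_const v
  rw [iteratedFDeriv_succ_eq_comp_right, iteratedFDeriv_succ_eq_comp_right, h2]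

theorem ld_bound {d : ℕ} {r : ℕ∞} {F : (Fin d → ℝ) → (Fin d → ℝ)} (hF : LD r F)
    (i : ℕ) (hi : 1 ≤ i) (hir : (i : ℕ∞) ≤ r) : ∃ C : ℝ, ∀ z, ‖iteratedFDeriv ℝ i F z‖ ≤ C := by
  have hcont : Continuous (iteratedFDeriv ℝ i F) :=
    hF.smooth.continuous_iteratedFDeriv (by exact_mod_cast hir)
  obtain ⟨C, hC⟩ := (isCompact_Icc (a := (0 : Fin d → ℝ)) (b := 1)).exists_bound_of_continuousOn
    hcont.continuousOn
  refine ⟨C, fun z => ?_⟩
  set w : Fin d → ℝ := fun l => Int.fract (z l) with hw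
  set v : Fin d → ℝ := fun l => (⌊z l⌋ : ℝ) with hv
  have hz : z = w + v := by
    funext l
    simp [hw, hv]
  rw [hz, ld_periodic hF v (fun l => ⟨_, rfl⟩) i hi w]
  apply hC
  constructor
  · intro l; exact Int.fract_nonneg _
  · intro l; exact (Int.fract_lt_one _).le

/-- `U ∘ F` is small if `U` is. -/
theorem ld_close {d : ℕ} {r : ℕ∞} {F : (Fin d → ℝ) → (Fin d → ℝ)} (hF : LD r F)
    (k : ℕ) (hk : (k : ℕ∞) ≤ r) (ε : ℝ) (hε : 0 < ε) :
    ∃ η : ℝ, 0 < η ∧ ∀ (U : (Fin d → ℝ) → (Fin d → ℝ)), SmallMap k η U →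
      Sml k ε (fun z => U (F z)) := by
  have hb : ∀ i : ℕ, ∃ C : ℝ, 1 ≤ i → i ≤ k → ∀ z, ‖iteratedFDeriv ℝ i F z‖ ≤ C := by
    intro i
    by_cases h : 1 ≤ i ∧ i ≤ k
    · obtain ⟨C, hC⟩ := ld_bound hF i h.1 (le_trans (by exact_mod_cast h.2) hk)
      exact ⟨C, fun _ _ => hC⟩
    · exact ⟨0, fun h1 h2 => absurd ⟨h1, h2⟩ h⟩
  choose C hC using hb
  set D : ℝ := 1 + ∑ i ∈ Finset.range (k + 1), |C i| with hD
  have hD1 : 1 ≤ D := by
    have : 0 ≤ ∑ i ∈ Finset.range (k + 1), |C i| := Finset.sum_nonneg fun _ _ => abs_nonneg _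
    linarith
  have hDb : ∀ i, 1 ≤ i → i ≤ k → ∀ z, ‖iteratedFDeriv ℝ i F z‖ ≤ D ^ i := by
    intro i h1 h2 z
    have h3 : |C i| ≤ ∑ i ∈ Finset.range (k + 1), |C i| :=
      Finset.single_le_sum (f := fun i => |C i|) (fun _ _ => abs_nonneg _)
        (Finset.mem_range.2 (by omega))
    have h4 : ‖iteratedFDeriv ℝ i F z‖ ≤ D :=
      (hC i h1 h2 z).trans ((le_abs_self _).trans (by linarith))
    exact h4.trans (le_self_pow₀ hD1 (by omega))
  have hfac : (0 : ℝ) < k.factorial := by positivity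
  have hDpos : 0 < D ^ k := by positivity
  refine ⟨ε / (2 * (k.factorial * D ^ k)), by positivity, fun U hU => ?_⟩
  set η : ℝ := ε / (2 * (k.factorial * D ^ k)) with hη
  have hηpos : 0 < η := by positivity
  have hFk : ContDiff ℝ (k : ℕ) F := hF.smooth.of_le (by exact_mod_cast hk)
  have hUk : ContDiff ℝ (k : ℕ) U := hU.smooth.of_le (by exact_mod_cast le_top)
  intro j hj z
  have h2 := norm_iteratedFDeriv_comp_le (n := j) (N := (k : ℕ)) hUk hFk
    (by exact_mod_cast hj) z (C := η) (D := D)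
    (fun i hi => (hU.lt i (hi.trans hj) _).le) (fun i h1 h2 => hDb i h1 (h2.trans hj) z)
  refine lt_of_le_of_lt h2 ?_
  have h3 : (j.factorial : ℝ) ≤ k.factorial := by exact_mod_cast Nat.factorial_le hj
  have h4 : D ^ j ≤ D ^ k := pow_le_pow_right₀ hD1 hj
  calc (j.factorial : ℝ) * η * D ^ j ≤ k.factorial * η * D ^ k := by gcongr
    _ = ε / 2 := by rw [hη]; field_simp
    _ < ε := by linarith

theorem sml_add_const {d : ℕ} (k : ℕ) (ε : ℝ) (hε : 0 < ε) (U : (Fin d → ℝ) → (Fin d → ℝ))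
    (hU : Sml k (ε / 2) U) (c : Fin d → ℝ) (hc : ‖c‖ < ε / 2) : Sml k ε (fun z => U z + c) := by
  intro j hj z
  rcases Nat.eq_zero_or_pos j with rfl | hj0
  · have h1 := hU 0 (Nat.zero_le _) z
    rw [norm_iteratedFDeriv_zero] at h1 ⊢
    calc ‖U z + c‖ ≤ ‖U z‖ + ‖c‖ := norm_add_le _ _
      _ < ε := by linarith
  · obtain ⟨m, rfl⟩ := Nat.exists_eq_add_of_le' hj0
    have h2 : (fderiv ℝ fun z => U z + c) = fderiv ℝ U := by
      funext y
      exact fderiv_add_const c
    have h1 := hU _ hj z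
    rw [iteratedFDeriv_succ_eq_comp_right] at h1 ⊢
    rw [h2]
    linarith

/-! ### Lifts of diffeomorphisms -/

theorem LD.comp {d : ℕ} {r : ℕ∞} {F G : (Fin d → ℝ) → (Fin d → ℝ)} (hF : LD r F) (hG : LD r G) :
    LD r (fun z => G (F z)) := by
  obtain ⟨F', hF', h1, h2⟩ := hF.inv
  obtain ⟨G', hG', h3, h4⟩ := hG.inv
  refine ⟨hG.smooth.comp hF.smooth, fun z n hn => ?_, fun z => F' (G' z), hF'.comp hG',
    fun z => ?_, fun z => ?_⟩
  · show G (F (z + n)) = G (F z) + n
    rw [hF.per z n hn, hG.per _ n hn]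
  · show F' (G' (G (F z))) = z
    rw [h3, h1]
  · show G (F (F' (G' z))) = z
    rw [h2, h4]

theorem LD.add {d : ℕ} {r : ℕ∞} {F : (Fin d → ℝ) → (Fin d → ℝ)} (hF : LD r F) (c : Fin d → ℝ) :
    LD r (fun z => F z + c) := by
  obtain ⟨F', hF', h1, h2⟩ := hF.inv
  refine ⟨hF.smooth.add contDiff_const, fun z n hn => ?_, fun z => F' (z - c),
    hF'.comp (contDiff_id.sub contDiff_const), fun z => ?_, fun z => ?_⟩
  · show F (z + n) + c = F z + c + n
    rw [hF.per z n hn]
    abel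
  · show F' (F z + c - c) = z
    rw [add_sub_cancel_right, h1]
  · show F (F' (z - c)) + c = z
    rw [h2, sub_add_cancel]

theorem per_int {u : ℝ → ℝ} (hu : ∀ y, u (y + 1) = u y) (y : ℝ) (n : ℤ) : u (y + n) = u y := by
  have hp : Function.Periodic u 1 := hu
  have := hp.int_mul n y
  simpa using this

theorem ld_prodLift {d : ℕ} (r : ℕ∞) (u : Fin d → ℝ → ℝ) (hu : ∀ i, Small 1 1 (u i)) :
    LD r (prodLift u) := by
  choose h hh hmono hsm hsm' using fun i => PRODaux.exists_line (u i) (hu i)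
  refine ⟨?_, ?_, fun z i => (h i).symm (z i), ?_, ?_, ?_⟩
  · refine ContDiff.of_le (n := ((⊤ : ℕ∞) : WithTop ℕ∞)) ?_ (by exact_mod_cast le_top)
    rw [contDiff_pi]
    intro i
    exact (contDiff_apply ℝ ℝ i).add ((hu i).smooth.comp (contDiff_apply ℝ ℝ i))
  · intro z n hn
    funext i
    obtain ⟨m, hm⟩ := hn i
    show (z i + n i) + u i (z i + n i) = (z i + u i (z i)) + n i
    rw [hm, per_int (hu i).per]
    ring
  · refine ContDiff.of_le (n := ((⊤ : ℕ∞) : WithTop ℕ∞)) ?_ (by exact_mod_cast le_top)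
    rw [contDiff_pi]
    intro i
    exact (hsm' i).comp (contDiff_apply ℝ ℝ i)
  · intro z
    funext i
    show (h i).symm (z i + u i (z i)) = z i
    rw [← hh, Homeomorph.symm_apply_apply]
  · intro z
    funext i
    show (h i).symm (z i) + u i ((h i).symm (z i)) = z i
    rw [← hh, Homeomorph.apply_symm_apply]

theorem small_zero (k : ℕ) (η : ℝ) (hη : 0 < η) : Small k η (fun _ => 0) := by
  refine ⟨contDiff_const, fun _ => rfl, fun j _ y => ?_⟩
  have : iteratedDeriv j (fun _ : ℝ => (0 : ℝ)) y = 0 := by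
    rw [iteratedDeriv_const]; split_ifs <;> rfl
  rw [this, abs_zero]
  exact hη

/-! ### The coordinates -/

section coords

variable {J c : ℕ}

/-- the last `c` coordinates -/
def q (z : Fin (J + c) → ℝ) : Fin c → ℝ := fun i => z (Fin.natAdd J i)

/-- the first `J` coordinates -/
def hd (z : Fin (J + c) → ℝ) : Fin J → ℝ := fun i => z (Fin.castAdd c i)

/-- inclusion of the first coordinates -/
def ι : (Fin J → ℝ) →ₗ[ℝ] (Fin (J + c) → ℝ) where
  toFun x := Fin.append x 0
  map_add' x y := by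
    funext i
    refine Fin.addCases (fun i => ?_) (fun i => ?_) i <;> simp
  map_smul' a x := by
    funext i
    refine Fin.addCases (fun i => ?_) (fun i => ?_) i <;> simp

theorem hd_ι (x : Fin J → ℝ) : hd (ι (c := c) x) = x := by
  funext i
  show Fin.append x 0 (Fin.castAdd c i) = x i
  simp

theorem q_ι (x : Fin J → ℝ) : q (ι (c := c) x) = 0 := by
  funext i
  show Fin.append x 0 (Fin.natAdd J i) = 0
  simp

theorem ext_coords {z w : Fin (J + c) → ℝ} (h1 : hd z = hd w) (h2 : q z = q w) : z = w := by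
  funext i
  refine Fin.addCases (fun i => ?_) (fun i => ?_) i
  · exact congrFun h1 i
  · exact congrFun h2 i

theorem ι_hd {z : Fin (J + c) → ℝ} (hz : z ∈ std (J + c) J) : ι (hd z) = z := by
  refine ext_coords (hd_ι _) ?_
  rw [q_ι]
  funext i
  exact (hz (Fin.natAdd J i) (by simp)).symm

theorem hd_add (z w : Fin (J + c) → ℝ) : hd (z + w) = hd z + hd w := rfl

theorem hd_sub (z w : Fin (J + c) → ℝ) : hd (z - w) = hd z - hd w := rfl

theorem q_add (z w : Fin (J + c) → ℝ) : q (z + w) = q z + q w := rfl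

theorem isInt_ι {x : Fin J → ℝ} (hx : IsInt x) : IsInt (ι (c := c) x) := by
  intro i
  refine Fin.addCases (fun i => ?_) (fun i => ?_) i
  · obtain ⟨n, hn⟩ := hx i
    exact ⟨n, by rw [← hn]; exact congrFun (hd_ι (c := c) x) i⟩
  · exact ⟨0, by rw [Int.cast_zero]; exact congrFun (q_ι (c := c) x) i⟩

theorem cont_hd : Continuous (hd (J := J) (c := c)) :=
  continuous_pi fun i => continuous_apply (Fin.castAdd c i)

end coords

/-- the linear form with kernel `V j` on `std (j + 1)` -/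
theorem exists_lam (j c : ℕ) (W : Submodule ℝ (Fin (j + 1 + c) → ℝ))
    (hW : W ≤ std (j + 1 + c) (j + 1)) (hdim : Module.finrank ℝ W = j) :
    ∃ lam : (Fin (j + 1) → ℝ) →ₗ[ℝ] ℝ, lam ≠ 0 ∧ ∀ x, lam x = 0 ↔ ι (c := c) x ∈ W := by
  set K : Submodule ℝ (Fin (j + 1) → ℝ) := W.comap (ι (c := c)) with hK
  have hinj : Function.Injective (ι (J := j + 1) (c := c)) := by
    intro x y hxy
    rw [← hd_ι (c := c) x, ← hd_ι (c := c) y, hxy]
  have hmap : K.map (ι (c := c)) = W := by
    apply le_antisymm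
    · rintro _ ⟨x, hx, rfl⟩
      exact hx
    · intro w hw
      refine ⟨hd w, ?_, ι_hd (hW hw)⟩
      show ι (hd w) ∈ W
      rw [ι_hd (hW hw)]
      exact hw
  have hKdim : Module.finrank ℝ K = j := by
    have h1 : Module.finrank ℝ (K.map (ι (c := c))) = Module.finrank ℝ K :=
      (LinearEquiv.finrank_eq (Submodule.equivMapOfInjective (ι (c := c)) hinj K)).symm
    rw [← h1, hmap, hdim]
  have hq : Module.finrank ℝ ((Fin (j + 1) → ℝ) ⧸ K) = 1 := by
    have := Submodule.finrank_quotient_add_finrank K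
    rw [hKdim, Module.finrank_fin_fun] at this
    omega
  obtain ⟨e⟩ : Nonempty (((Fin (j + 1) → ℝ) ⧸ K) ≃ₗ[ℝ] ℝ) :=
    FiniteDimensional.nonempty_linearEquiv_of_finrank_eq (by rw [hq, Module.finrank_self])
  have hker : ∀ x, e (K.mkQ x) = 0 ↔ ι (c := c) x ∈ W := by
    intro x
    rw [LinearEquiv.map_eq_zero_iff, Submodule.mkQ_apply, Submodule.Quotient.mk_eq_zero]
    rfl
  refine ⟨e.toLinearMap ∘ₗ K.mkQ, ?_, hker⟩
  intro h0
  obtain ⟨y, hy⟩ := e.surjective 1
  obtain ⟨x, rfl⟩ := K.mkQ_surjective y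
  have : (e.toLinearMap ∘ₗ K.mkQ) x = 1 := hy
  rw [h0] at this
  simp at this

/-- the kernel is not rational -/
theorem not_rat (j c : ℕ) (W : Submodule ℝ (Fin (j + 1 + c) → ℝ))
    (hW : W ≤ std (j + 1 + c) (j + 1)) (lam : (Fin (j + 1) → ℝ) →ₗ[ℝ] ℝ)
    (hlam : ∀ x, lam x = 0 ↔ ι (c := c) x ∈ W) (hr : ¬ IsRat W) : ¬ IsRat (LinearMap.ker lam) := by
  intro h
  apply hr
  apply le_antisymm
  · intro w hw
    have h1 : hd w ∈ LinearMap.ker lam := by
      rw [LinearMap.mem_ker, hlam, ι_hd (hW hw)]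
      exact hw
    rw [h] at h1
    have h2 : ι (c := c) (hd w) ∈ (Submodule.span ℝ {n | n ∈ LinearMap.ker lam ∧ IsInt n}).map
        (ι (c := c)) := ⟨_, h1, rfl⟩
    rw [ι_hd (hW hw), Submodule.map_span] at h2
    refine Submodule.span_mono ?_ h2
    rintro _ ⟨n, ⟨hn1, hn2⟩, rfl⟩
    refine ⟨?_, isInt_ι hn2⟩
    rw [← hlam]
    exact hn1
  · rw [Submodule.span_le]
    rintro n ⟨hn, -⟩
    exact hn

/-- a continuous function on `ℝ^(j+1+c)` invariant under `W` and the integer vectors depends only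
on the last coordinates -/
theorem tau_inv (j c : ℕ) (W : Submodule ℝ (Fin (j + 1 + c) → ℝ))
    (lam : (Fin (j + 1) → ℝ) →ₗ[ℝ] ℝ)
    (hlam : ∀ x, lam x = 0 ↔ ι (c := c) x ∈ W)
    (hdense : Dense {x : ℝ | ∃ n, IsInt n ∧ x = lam n}) (x0 : Fin (j + 1) → ℝ) (hx0 : lam x0 = 1)
    (tau : (Fin (j + 1 + c) → ℝ) → ℝ) (hc : Continuous tau)
    (hi : ∀ z n, IsInt n → tau (z + n) = tau z) (hw : ∀ z w, w ∈ W → tau (z + w) = tau z)
    (z : Fin (j + 1 + c) → ℝ) (y : Fin (j + 1) → ℝ) : tau (z + ι y) = tau z := by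
  have h1 : ∀ s : ℝ, tau (z + s • ι x0) = tau z := by
    intro s
    have hcl : IsClosed {s : ℝ | tau (z + s • ι x0) = tau z} :=
      isClosed_eq (hc.comp (continuous_const.add (continuous_id.smul continuous_const)))
        continuous_const
    have hsub : {x : ℝ | ∃ n, IsInt n ∧ x = lam n} ⊆ {s : ℝ | tau (z + s • ι x0) = tau z} := by
      rintro _ ⟨n, hn, rfl⟩
      show tau (z + lam n • ι x0) = tau z
      have e : z + lam n • ι x0 = z + ι n + ι (c := c) (lam n • x0 - n) := by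
        rw [map_sub, map_smul]
        abel
      rw [e, hw, hi _ _ (isInt_ι hn)]
      rw [← hlam, map_sub, map_smul, hx0]
      simp
    have := hcl.closure_subset_iff.2 hsub (hdense s)
    exact this
  have e : z + ι y = z + lam y • ι x0 + ι (c := c) (y - lam y • x0) := by
    rw [map_sub, map_smul]
    abel
  rw [e, hw, h1]
  rw [← hlam, map_sub, map_smul, hx0]
  simp

theorem t (hQ : S_QUOT2) (hI : S_INV) (hK : S_KRON) (hS : S_STD) (hD : S_DESC) : S_KILL := by
  intro j c r hr F V hF hV hP hVs hrat k hk ε hε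
  -- the flag
  have hWle : V j ≤ std (j + 1 + c) (j + 1) := by
    rw [← hVs (j + 1) le_rfl]
    exact hV.mono (Nat.le_succ j)
  have hWdim : Module.finrank ℝ (V j) = j := hV.dim j (by omega)
  obtain ⟨lam, hlam0, hlam⟩ := exists_lam j c (V j) hWle hWdim
  have hdense := hK (j + 1) lam hlam0 (not_rat j c (V j) hWle lam hlam hrat)
  obtain ⟨x0, hx0⟩ : ∃ x0, lam x0 = 1 := by
    obtain ⟨x, hx⟩ : ∃ x, lam x ≠ 0 := by
      by_contra h
      push Not at h
      exact hlam0 (LinearMap.ext h)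
    exact ⟨(lam x)⁻¹ • x, by rw [map_smul, smul_eq_mul, inv_mul_cancel₀ hx]⟩
  -- the quotient
  obtain ⟨Fb, hFb, hPb, hFq⟩ := hQ (j + 1) c r F hF
    (fun k hk z w hw => by
      rw [← hVs k hk] at hw ⊢
      exact hP k z w hw)
    (fun G hG h1 h2 z w hw => by
      rw [← hVs (j + 1) le_rfl] at hw ⊢
      exact hI _ r F G V hF hV hP h1 h2 hG (j + 1) z w hw)
  have hFq' : ∀ z, q (F z) = Fb (q z) := fun z => funext fun i => hFq z i
  obtain ⟨fb, hfb, hfbd⟩ := hD c r Fb hFb
  have hfl : IsFlagDiffeo r fb := hS c r fb Fb hfbd hFb hfb hPb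
  -- the perturbation
  obtain ⟨η, hη, hclose⟩ := ld_close hF k hk (ε / 2) (half_pos hε)
  obtain ⟨u, Ψ, hu, hΨ, -, hconv, -⟩ := density hr c fb hfl (max k 1) (min η 1)
    (lt_min hη one_pos)
  set u' : Fin (j + 1 + c) → ℝ → ℝ := Fin.append (fun _ _ => 0) u with hu'
  have hu'l : ∀ i, u' (Fin.castAdd c i) = fun _ => 0 := fun i => by simp [hu']
  have hu'r : ∀ i, u' (Fin.natAdd (j + 1) i) = u i := fun i => by simp [hu']
  have hu's : ∀ i, Small (max k 1) (min η 1) (u' i) := by
    intro i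
    refine Fin.addCases (fun i => ?_) (fun i => ?_) i
    · rw [hu'l]
      exact small_zero _ _ (lt_min hη one_pos)
    · rw [hu'r]
      exact hu i
  have hLQ : LD r (prodLift u') := ld_prodLift r u' fun i =>
    small_mono (hu's i) (le_max_right _ _) (min_le_right _ _)
  have hsmall := hclose _ (smallMap_pi k η hη u' fun i =>
    small_mono (hu's i) (le_max_left _ _) (min_le_left _ _))
  set F1 : (Fin (j + 1 + c) → ℝ) → (Fin (j + 1 + c) → ℝ) := fun z => prodLift u' (F z) with hF1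
  have hLF1 : LD r F1 := LD.comp hF hLQ
  have hdF1 : ∀ z, hd (F1 z) = hd (F z) := by
    intro z
    funext i
    show F z (Fin.castAdd c i) + u' (Fin.castAdd c i) (F z (Fin.castAdd c i)) = _
    rw [hu'l, add_zero]
    rfl
  have qF1 : ∀ z, q (F1 z) = prodLift u (Fb (q z)) := by
    intro z
    funext i
    show F z (Fin.natAdd (j + 1) i) + u' (Fin.natAdd (j + 1) i) (F z (Fin.natAdd (j + 1) i)) = _
    rw [hu'r, ← hFq']
    rfl
  -- the function `tau`
  set tau : (Fin (j + 1 + c) → ℝ) → ℝ := fun z => lam (hd (F z - z)) with htau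
  have hlamc : Continuous lam := lam.continuous_of_finiteDimensional
  have htc : Continuous tau :=
    hlamc.comp (cont_hd.comp (hF.smooth.continuous.sub continuous_id))
  have hti : ∀ z n, IsInt n → tau (z + n) = tau z := by
    intro z n hn
    simp only [htau]
    rw [hF.per z n hn]
    congr 2
    abel
  have hlW : ∀ w ∈ V j, lam (hd w) = 0 := by
    intro w hw
    rw [hlam, ι_hd (hWle hw)]
    exact hw
  have htw : ∀ z w, w ∈ V j → tau (z + w) = tau z := by
    intro z w hw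
    simp only [htau]
    have e : F (z + w) - (z + w) = (F z - z) + (F (z + w) - F z) - w := by abel
    rw [e, hd_sub, hd_add, map_sub, map_add, hlW _ (hP j z w hw), hlW w hw]
    ring
  have htι : ∀ z y, tau (z + ι y) = tau z :=
    tau_inv j c (V j) lam hlam hdense x0 hx0 tau htc hti htw
  set T : (Fin c → ℝ) → ℝ := fun y => tau (Fin.append 0 y) with hT
  have htT : ∀ z, tau z = T (q z) := by
    intro z
    have e : z = Fin.append 0 (q z) + ι (hd z) := by
      refine ext_coords ?_ ?_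
      · rw [hd_add, hd_ι]
        funext i
        show z (Fin.castAdd c i) = Fin.append 0 (q z) (Fin.castAdd c i) + z (Fin.castAdd c i)
        simp
      · rw [q_add, q_ι]
        funext i
        show z (Fin.natAdd (j + 1) i) = Fin.append 0 (q z) (Fin.natAdd (j + 1) i) + 0
        simp [q]
    conv_lhs => rw [e]
    rw [htι]
  have hTi : ∀ y n, IsInt n → T (y + n) = T y := by
    intro y n hn
    simp only [hT]
    have e : (Fin.append 0 (y + n) : Fin (j + 1 + c) → ℝ) =
        Fin.append 0 y + Fin.append 0 n := by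
      funext i
      refine Fin.addCases (fun i => ?_) (fun i => ?_) i <;> simp
    rw [e]
    refine hti _ _ ?_
    intro i
    refine Fin.addCases (fun i => ?_) (fun i => ?_) i
    · exact ⟨0, by simp⟩
    · obtain ⟨m, hm⟩ := hn i
      exact ⟨m, by rw [← hm]; simp⟩
  set tb : Torus c → ℝ := fun p => T (rep p) with htb
  have hTtb : ∀ y, T y = tb (toTorus y) := by
    intro y
    simp only [htb]
    have h1 : toTorus (rep (toTorus y)) = toTorus y := toTorus_rep _
    have h2 : ∀ i, ∃ n : ℤ, y i = rep (toTorus y) i + n := fun i =>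
      exists_int (congrFun h1.symm i)
    choose n hn using h2
    have e : y = rep (toTorus y) + fun i => (n i : ℝ) := funext hn
    conv_lhs => rw [e]
    exact hTi _ _ fun i => ⟨n i, rfl⟩
  -- the bad set
  set g : Torus c ≃ₜ Torus c := fb.trans Ψ with hg
  set bad : Set ℝ := (fun a : Torus c × ℕ × (Fin (j + 1) → ℤ) =>
    (lam (fun i => (a.2.2 i : ℝ)) - ∑ i ∈ Finset.range a.2.1, tb (g^[i] a.1)) / a.2.1) ''
    ({x | ∃ n, 0 < n ∧ g^[n] x = x} ×ˢ univ) with hbad
  have hcount : bad.Countable :=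
    (hconv.1.countable.prod countable_univ).image _
  obtain ⟨t, ht1, ht2⟩ : ∃ t : ℝ, ‖t • ι (c := c) x0‖ < ε / 2 ∧ t ∉ bad := by
    have hopen : IsOpen {t : ℝ | ‖t • ι (c := c) x0‖ < ε / 2} :=
      isOpen_lt (continuous_id.smul continuous_const).norm continuous_const
    obtain ⟨t, h1, h2⟩ := (hcount.dense_compl ℝ).exists_mem_open hopen ⟨0, by simp [hε]⟩
    exact ⟨t, h2, h1⟩
  refine ⟨fun z => F1 z + t • ι x0, LD.add hLF1 _, ?_, ?_⟩
  · have e : (fun z => F1 z + t • ι (c := c) x0 - F z) =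
        fun z => (fun (z : Fin (j + 1 + c) → ℝ) (i : Fin (j + 1 + c)) => u' i (z i)) (F z) +
          t • ι (c := c) x0 := by
      funext z i
      show F z i + u' i (F z i) + (t • ι (c := c) x0) i - F z i =
        u' i (F z i) + (t • ι (c := c) x0) i
      ring
    rw [e]
    exact sml_add_const k ε hε _ hsmall _ ht1
  intro z n hn hint
  set F' : (Fin (j + 1 + c) → ℝ) → (Fin (j + 1 + c) → ℝ) := fun z => F1 z + t • ι x0 with hF'
  have hqF' : ∀ z, toTorus (q (F' z)) = g (toTorus (q z)) := by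
    intro z
    have h1 : q (F' z) = prodLift u (Fb (q z)) := by
      rw [← qF1]
      show q (F1 z + t • ι x0) = q (F1 z)
      rw [← map_smul, q_add, q_ι, add_zero]
    rw [h1, hΨ, hfb]
    rfl
  have hqit : ∀ i, toTorus (q (F'^[i] z)) = g^[i] (toTorus (q z)) := by
    intro i
    induction i with
    | zero => rfl
    | succ i ih =>
      rw [Function.iterate_succ_apply', Function.iterate_succ_apply', hqF', ih]
  have hstep : ∀ z, lam (hd (F' z - z)) = tb (toTorus (q z)) + t := by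
    intro z
    have e : hd (F' z - z) = hd (F z - z) + t • x0 := by
      show hd (F1 z + t • ι x0 - z) = _
      rw [hd_sub, hd_add, hdF1, ← map_smul, hd_ι, hd_sub]
      abel
    rw [e, map_add, map_smul, hx0, ← hTtb, ← htT]
    simp [htau]
  have hsum : ∀ n, lam (hd (F'^[n] z - z)) =
      ∑ i ∈ Finset.range n, tb (g^[i] (toTorus (q z))) + n * t := by
    intro n
    induction n with
    | zero =>
      have : hd (F'^[0] z - z) = (0 : Fin (j + 1) → ℝ) := by
        rw [Function.iterate_zero, id_eq, sub_self]; rfl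
      rw [this]
      simp
    | succ n ih =>
      have e : F'^[n + 1] z - z = (F' (F'^[n] z) - F'^[n] z) + (F'^[n] z - z) := by
        rw [Function.iterate_succ_apply']
        abel
      rw [e, hd_add, map_add, hstep, ih, Finset.sum_range_succ, hqit]
      push_cast
      ring
  -- the contradiction
  apply ht2
  choose m hm using hint
  refine ⟨(toTorus (q z), n, fun i => m (Fin.castAdd c i)), ⟨⟨n, hn, ?_⟩, mem_univ _⟩, ?_⟩
  · rw [← hqit]
    funext i
    show ((F'^[n] z (Fin.natAdd (j + 1) i) : ℝ) : UnitAddCircle) =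
      ((z (Fin.natAdd (j + 1) i) : ℝ) : UnitAddCircle)
    have : F'^[n] z (Fin.natAdd (j + 1) i) = z (Fin.natAdd (j + 1) i) +
        (m (Fin.natAdd (j + 1) i) : ℝ) := by
      rw [← hm]
      simp
    rw [this, coe_add_int]
  · have h1 : lam (fun i => ((m (Fin.castAdd c i) : ℤ) : ℝ)) = lam (hd (F'^[n] z - z)) := by
      congr 1
      funext i
      exact (hm (Fin.castAdd c i)).symm
    show (lam (fun i => ((m (Fin.castAdd c i) : ℤ) : ℝ)) -
      ∑ i ∈ Finset.range n, tb (g^[i] (toTorus (q z)))) / n = t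
    rw [h1, hsum]
    have hn' : (n : ℝ) ≠ 0 := by exact_mod_cast hn.ne'
    field_simp
    ring

end Pool.Agent.Y925.LF.Kill
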